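import Pool.Agent.Helper15.KP.Defs

set_option autoImplicit false

open MeasureTheory Set

noncomputable section

namespace Pool.Agent.Helper15.KP

variable {m : ℕ}

/-- matrix of differences at the vertex `i`, first row `x i - x j` -/
def Mx (x : Fin (m + 2) → Fin (m + 1) → ℝ) (i j : Fin (m + 2)) (e : Fin m → Fin (m + 2)) :
    Matrix (Fin (m + 1)) (Fin (m + 1)) ℝ :=
  Matrix.of (Fin.cons (x i - x j) (fun a => x i - x (e a)))

def hx (x : Fin (m + 2) → Fin (m + 1) → ℝ) (R : Fin (m + 2) → ℝ) (i k : Fin (m + 2)) : ℝ :=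
  (∑ l, (x i l ^ 2 - x k l ^ 2) + R k - R i) / 2

def hv (x : Fin (m + 2) → Fin (m + 1) → ℝ) (R : Fin (m + 2) → ℝ) (i j : Fin (m + 2))
    (e : Fin m → Fin (m + 2)) : Fin (m + 1) → ℝ :=
  Fin.cons (hx x R i j) (fun a => hx x R i (e a))

theorem Mx_mulVec_zero (x : Fin (m + 2) → Fin (m + 1) → ℝ) (i j : Fin (m + 2))
    (e : Fin m → Fin (m + 2)) (z : Fin (m + 1) → ℝ) :
    (Mx x i j e).mulVec z 0 = ∑ l, (x i l - x j l) * z l := by
  simp [Matrix.mulVec, dotProduct, Mx]

theorem Mx_mulVec_succ (x : Fin (m + 2) → Fin (m + 1) → ℝ) (i j : Fin (m + 2))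
    (e : Fin m → Fin (m + 2)) (z : Fin (m + 1) → ℝ) (a : Fin m) :
    (Mx x i j e).mulVec z a.succ = ∑ l, (x i l - x (e a) l) * z l := by
  simp [Matrix.mulVec, dotProduct, Mx]

theorem F_sub (x : Fin (m + 2) → Fin (m + 1) → ℝ) (R : Fin (m + 2) → ℝ) (i k : Fin (m + 2))
    (w : (Fin (m + 1) → ℝ) × ℝ) :
    F (x k) (R k) w - F (x i) (R i) w =
      2 * (∑ l, (x i l - x k l) * w.1 l - hx x R i k) := by
  unfold F hx
  have h1 : ∑ l, (w.1 l - x k l) ^ 2 - ∑ l, (w.1 l - x i l) ^ 2 =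
      2 * ∑ l, (x i l - x k l) * w.1 l - ∑ l, (x i l ^ 2 - x k l ^ 2) := by
    rw [← Finset.sum_sub_distrib, Finset.mul_sum, ← Finset.sum_sub_distrib]
    refine Finset.sum_congr rfl fun l _ => ?_
    ring
  linarith

theorem cell_eq (x : Fin (m + 2) → Fin (m + 1) → ℝ) (R : Fin (m + 2) → ℝ) (i j : Fin (m + 2))
    (e : Fin m → Fin (m + 2)) (he : ∀ k, k = i ∨ k = j ∨ ∃ a, e a = k) :
    {w : (Fin (m + 1) → ℝ) × ℝ | ∀ k, F (x i) (R i) w ≤ F (x k) (R k) w} =
      {w : (Fin (m + 1) → ℝ) × ℝ | ∀ a, hv x R i j e a ≤ (Mx x i j e).mulVec w.1 a} := by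
  ext w
  simp only [mem_ofPred_eq]
  constructor
  · intro h a
    refine Fin.cases ?_ (fun b => ?_) a
    · rw [Mx_mulVec_zero]
      have := h j
      have h2 := F_sub x R i j w
      simp only [hv, Fin.cons_zero]
      linarith
    · rw [Mx_mulVec_succ]
      have := h (e b)
      have h2 := F_sub x R i (e b) w
      simp only [hv, Fin.cons_succ]
      linarith
  · intro h k
    rcases he k with rfl | rfl | ⟨a, rfl⟩
    · exact le_rfl
    · have h1 := h 0
      rw [Mx_mulVec_zero] at h1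
      have h2 := F_sub x R i k w
      simp only [hv, Fin.cons_zero] at h1
      linarith
    · have h1 := h a.succ
      rw [Mx_mulVec_succ] at h1
      have h2 := F_sub x R i (e a) w
      simp only [hv, Fin.cons_succ] at h1
      linarith

theorem Mx_det_ne (x : Fin (m + 2) → Fin (m + 1) → ℝ) (hx : AffineIndependent ℝ x)
    (i j : Fin (m + 2)) (hij : i ≠ j) (e : Fin m → Fin (m + 2)) (hinj : Function.Injective e)
    (hei : ∀ a, e a ≠ i) (hej : ∀ a, e a ≠ j) : (Mx x i j e).det ≠ 0 := by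
  have h1 := (affineIndependent_iff_linearIndependent_vsub ℝ x i).1 hx
  let g : Fin (m + 1) → {k // k ≠ i} := Fin.cons ⟨j, hij.symm⟩ (fun a => ⟨e a, hei a⟩)
  have hg : Function.Injective g := by
    intro a b
    refine Fin.cases ?_ (fun a => ?_) a <;> refine Fin.cases ?_ (fun b => ?_) b
    · intro _; rfl
    · intro h
      have : (j : Fin (m + 2)) = e b := congrArg Subtype.val h
      exact absurd this.symm (hej b)
    · intro h
      have : e a = (j : Fin (m + 2)) := congrArg Subtype.val h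
      exact absurd this (hej a)
    · intro h
      have : e a = e b := congrArg Subtype.val h
      rw [hinj this]
  have h2 := (h1.comp g hg)
  have h3 : LinearIndependent ℝ (fun a => (-1 : ℝˣ) • ((fun k : {k // k ≠ i} => x k -ᵥ x i) ∘ g) a) :=
    h2.units_smul (fun _ => -1)
  have h4 : (fun a => (-1 : ℝˣ) • ((fun k : {k // k ≠ i} => x k -ᵥ x i) ∘ g) a) = (Mx x i j e).row := by
    funext a
    refine Fin.cases ?_ (fun b => ?_) a
    · funext l
      simp [Mx, g, Units.smul_def]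
    · funext l
      simp [Mx, g, Units.smul_def]
  rw [h4] at h3
  have h5 := Matrix.linearIndependent_rows_iff_isUnit.1 h3
  exact ((Matrix.isUnit_iff_isUnit_det _).1 h5).ne_zero

/-- the linear map which exchanges the roles of `i` and `j` -/
def Ex (m : ℕ) : Matrix (Fin (m + 1)) (Fin (m + 1)) ℝ :=
  Matrix.of (Fin.cons (-Pi.single 0 1) (fun a => Pi.single a.succ 1 - Pi.single 0 1))

theorem Mx_swap (x : Fin (m + 2) → Fin (m + 1) → ℝ) (i j : Fin (m + 2)) (e : Fin m → Fin (m + 2)) :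
    Mx x j i e = Ex m * Mx x i j e := by
  ext a b
  rw [Matrix.mul_apply]
  refine Fin.cases ?_ (fun c => ?_) a
  · simp [Mx, Ex, Pi.single_apply, Finset.sum_ite_eq']
  · simp [Mx, Ex, Pi.single_apply, sub_mul, Finset.sum_sub_distrib, Finset.sum_ite_eq']

theorem Ex_det (m : ℕ) : (Ex m).det = -1 := by
  rw [Matrix.det_of_isLowerTriangular]
  · rw [Fin.prod_univ_succ]
    simp [Ex]
  · intro a b hab
    have hab' : a < b := hab
    induction a using Fin.cases with
    | zero =>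
      simp [Ex, Pi.single_apply, (Fin.ne_of_gt hab')]
    | succ a =>
      have hb : b ≠ 0 := Fin.ne_zero_of_lt hab'
      have h2 : b ≠ a.succ := Fin.ne_of_gt hab'
      simp [Ex, Pi.single_apply, hb, h2]

theorem Ex_mulVec_zero (m : ℕ) (g : Fin (m + 1) → ℝ) : (Ex m).mulVec g 0 = - g 0 := by
  simp [Matrix.mulVec, dotProduct, Ex, Pi.single_apply]

theorem Ex_mulVec_succ (m : ℕ) (g : Fin (m + 1) → ℝ) (a : Fin m) :
    (Ex m).mulVec g a.succ = g a.succ - g 0 := by
  simp [Matrix.mulVec, dotProduct, Ex, Pi.single_apply, sub_mul, Finset.sum_sub_distrib]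

theorem hx_swap (x : Fin (m + 2) → Fin (m + 1) → ℝ) (R : Fin (m + 2) → ℝ) (i j : Fin (m + 2)) :
    hx x R j i = - hx x R i j := by
  unfold hx
  have : ∑ l, (x j l ^ 2 - x i l ^ 2) = - ∑ l, (x i l ^ 2 - x j l ^ 2) := by
    rw [← Finset.sum_neg_distrib]
    exact Finset.sum_congr rfl fun l _ => by ring
  rw [this]; ring

theorem hx_add (x : Fin (m + 2) → Fin (m + 1) → ℝ) (R : Fin (m + 2) → ℝ) (i j k : Fin (m + 2)) :
    hx x R j k = hx x R i k - hx x R i j := by
  unfold hx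
  have : ∑ l, (x j l ^ 2 - x k l ^ 2) =
      ∑ l, (x i l ^ 2 - x k l ^ 2) - ∑ l, (x i l ^ 2 - x j l ^ 2) := by
    rw [← Finset.sum_sub_distrib]
    exact Finset.sum_congr rfl fun l _ => by ring
  rw [this]; ring

theorem Ex_cons (x : Fin (m + 2) → Fin (m + 1) → ℝ) (R : Fin (m + 2) → ℝ) (i j : Fin (m + 2))
    (e : Fin m → Fin (m + 2)) (s : Fin m → ℝ) :
    (Ex m).mulVec (Fin.cons 0 s + hv x R i j e) = Fin.cons 0 s + hv x R j i e := by
  funext a
  induction a using Fin.cases with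
  | zero =>
    rw [Ex_mulVec_zero]
    simp only [Pi.add_apply, Fin.cons_zero, hv, zero_add]
    rw [hx_swap x R i j]
  | succ a =>
    rw [Ex_mulVec_succ]
    simp only [Pi.add_apply, Fin.cons_zero, Fin.cons_succ, hv, zero_add]
    rw [hx_add x R i j (e a)]
    ring

theorem wall_swap (x : Fin (m + 2) → Fin (m + 1) → ℝ) (R : Fin (m + 2) → ℝ) (i j : Fin (m + 2))
    (e : Fin m → Fin (m + 2)) (h1 : (Mx x i j e).det ≠ 0) (s : Fin m → ℝ) :
    (Mx x j i e)⁻¹.mulVec (Fin.cons 0 s + hv x R j i e) =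
      (Mx x i j e)⁻¹.mulVec (Fin.cons 0 s + hv x R i j e) := by
  have hu : IsUnit (Mx x i j e).det := isUnit_iff_ne_zero.2 h1
  have hu2 : IsUnit (Ex m).det := by rw [Ex_det]; exact isUnit_iff_ne_zero.2 (by norm_num)
  rw [Mx_swap x i j e, Matrix.mul_inv_rev, ← Ex_cons x R i j e s, Matrix.mulVec_mulVec,
    Matrix.mul_assoc, Matrix.nonsing_inv_mul _ hu2, Matrix.mul_one]

theorem wall_F (x : Fin (m + 2) → Fin (m + 1) → ℝ) (R : Fin (m + 2) → ℝ) (i j : Fin (m + 2))
    (e : Fin m → Fin (m + 2)) (h1 : (Mx x i j e).det ≠ 0) (s : Fin m → ℝ) (y : ℝ) :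
    F (x j) (R j) ((Mx x i j e)⁻¹.mulVec (Fin.cons 0 s + hv x R i j e), y) =
    F (x i) (R i) ((Mx x i j e)⁻¹.mulVec (Fin.cons 0 s + hv x R i j e), y) := by
  have hu : IsUnit (Mx x i j e).det := isUnit_iff_ne_zero.2 h1
  have h2 := F_sub x R i j ((Mx x i j e)⁻¹.mulVec (Fin.cons 0 s + hv x R i j e), y)
  simp only at h2
  rw [← Mx_mulVec_zero x i j e, Matrix.mulVec_mulVec, Matrix.mul_nonsing_inv _ hu,
    Matrix.one_mulVec] at h2
  have h3 : (Fin.cons 0 s + hv x R i j e : Fin (m + 1) → ℝ) 0 - hx x R i j = 0 := by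
    simp [hv]
  rw [h3, mul_zero] at h2
  linarith

/-- wall integral -/
def W (Φ : ℝ → ℝ) (x : Fin (m + 2) → Fin (m + 1) → ℝ) (R : Fin (m + 2) → ℝ) (i j : Fin (m + 2))
    (e : Fin m → Fin (m + 2)) : ℝ :=
  |(Mx x i j e).det|⁻¹ * ∫ w in {w : (Fin m → ℝ) × ℝ | ∀ a, 0 ≤ w.1 a},
    Φ (F (x i) (R i) ((Mx x i j e)⁻¹.mulVec (Fin.cons 0 w.1 + hv x R i j e), w.2))

theorem W_swap (Φ : ℝ → ℝ) (x : Fin (m + 2) → Fin (m + 1) → ℝ) (R : Fin (m + 2) → ℝ)
    (i j : Fin (m + 2)) (e : Fin m → Fin (m + 2)) (h1 : (Mx x i j e).det ≠ 0) :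
    W Φ x R j i e = W Φ x R i j e := by
  unfold W
  congr 1
  · rw [Mx_swap x i j e, Matrix.det_mul, Ex_det]
    simp
  · congr 1
    funext w
    rw [wall_swap x R i j e h1, wall_F x R i j e h1]

theorem compact_F {m : ℕ} (g : ℝ → ℝ) (hg : HasCompactSupport g) (c : Fin m → ℝ) (R : ℝ) :
    HasCompactSupport (fun w : (Fin m → ℝ) × ℝ => g (F c R w)) := by
  obtain ⟨B, hB⟩ := hg.isCompact.isBounded.subset_closedBall (0 : ℝ)
  have hB2 : ∀ s, B < s → g s = 0 := by
    intro s hs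
    by_contra hne
    have h1 : s ∈ tsupport g := subset_tsupport _ hne
    have h2 := hB h1
    rw [mem_closedBall_zero_iff, Real.norm_eq_abs] at h2
    linarith [le_abs_self s]
  refine HasCompactSupport.intro (isCompact_closedBall ((c, 0) : (Fin m → ℝ) × ℝ)
    (Real.sqrt (max (B + R) 0))) ?_
  intro w hw
  apply hB2
  by_contra hle
  push Not at hle
  apply hw
  have hS : ∑ l, (w.1 l - c l) ^ 2 + w.2 ^ 2 ≤ max (B + R) 0 := by
    refine le_trans ?_ (le_max_left _ _)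
    unfold F at hle
    linarith
  have hnn : 0 ≤ ∑ l, (w.1 l - c l) ^ 2 := Finset.sum_nonneg fun l _ => sq_nonneg _
  rw [Metric.mem_closedBall, Prod.dist_eq]
  refine max_le ?_ ?_
  · rw [dist_pi_le_iff (Real.sqrt_nonneg _)]
    intro l
    rw [Real.dist_eq]
    refine Real.le_sqrt_of_sq_le ?_
    rw [sq_abs]
    have : (w.1 l - c l) ^ 2 ≤ ∑ l, (w.1 l - c l) ^ 2 :=
      Finset.single_le_sum (f := fun l => (w.1 l - c l) ^ 2) (fun l _ => sq_nonneg _)
        (Finset.mem_univ l)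
    nlinarith [sq_nonneg w.2]
  · rw [Real.dist_eq]
    refine Real.le_sqrt_of_sq_le ?_
    rw [sq_abs]
    simp only [sub_zero]
    nlinarith

theorem continuous_F {m : ℕ} (c : Fin m → ℝ) (R : ℝ) : Continuous (F c R) := by
  unfold F
  fun_prop

theorem integrable_term {m : ℕ} (Φ : ℝ → ℝ) (hΦ : ContDiff ℝ 1 Φ) (hs : HasCompactSupport Φ)
    (c : Fin m → ℝ) (R : ℝ) (u : Fin m → ℝ) :
    Integrable (fun w : (Fin m → ℝ) × ℝ =>
      deriv Φ (F c R w) * (-2 * ∑ l, (w.1 l - c l) * u l)) := by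
  have h1 : Continuous (deriv Φ) := hΦ.continuous_deriv le_rfl
  have h2 : HasCompactSupport (fun w : (Fin m → ℝ) × ℝ => deriv Φ (F c R w)) :=
    compact_F _ hs.deriv c R
  have h3 : Continuous (fun w : (Fin m → ℝ) × ℝ =>
      deriv Φ (F c R w) * (-2 * ∑ l, (w.1 l - c l) * u l)) := by
    refine (h1.comp (continuous_F c R)).mul ?_
    fun_prop
  exact h3.integrable_of_hasCompactSupport h2.mul_right

theorem exists_enum {m : ℕ} (i j : Fin (m + 2)) (hij : i ≠ j) :
    ∃ e : Fin m → Fin (m + 2), Function.Injective e ∧ (∀ a, e a ≠ i) ∧ (∀ a, e a ≠ j) ∧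
      ∀ k, k = i ∨ k = j ∨ ∃ a, e a = k := by
  obtain ⟨j', hj'⟩ := Fin.exists_succAbove_eq hij.symm
  refine ⟨fun a => i.succAbove (j'.succAbove a), ?_, ?_, ?_, ?_⟩
  · exact Fin.succAbove_right_injective.comp Fin.succAbove_right_injective
  · intro a
    exact Fin.succAbove_ne _ _
  · intro a h
    rw [← hj'] at h
    exact Fin.succAbove_ne _ _ (Fin.succAbove_right_injective h)
  · intro k
    by_cases hki : k = i
    · exact Or.inl hki
    · right
      obtain ⟨k', hk'⟩ := Fin.exists_succAbove_eq hki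
      by_cases hkj : k' = j'
      · left; rw [← hk', hkj, hj']
      · right
        obtain ⟨a, ha⟩ := Fin.exists_succAbove_eq hkj
        exact ⟨a, by simp only [ha, hk']⟩

theorem exists_symm_enum (m : ℕ) :
    ∃ E : Fin (m + 2) → Fin (m + 2) → Fin m → Fin (m + 2), (∀ i j, E i j = E j i) ∧
      ∀ i j, i ≠ j → Function.Injective (E i j) ∧ (∀ a, E i j a ≠ i) ∧ (∀ a, E i j a ≠ j) ∧
      ∀ k, k = i ∨ k = j ∨ ∃ a, E i j a = k := by
  classical
  have h : ∀ i j : Fin (m + 2), ∃ e : Fin m → Fin (m + 2), i ≠ j →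
      Function.Injective e ∧ (∀ a, e a ≠ i) ∧ (∀ a, e a ≠ j) ∧
      ∀ k, k = i ∨ k = j ∨ ∃ a, e a = k := by
    intro i j
    by_cases hij : i = j
    · by_cases hm : m = 0
      · subst hm
        exact ⟨fun a => a.elim0, fun h => absurd hij h⟩
      · exact ⟨fun _ => 0, fun h => absurd hij h⟩
    · obtain ⟨e, he⟩ := exists_enum i j hij
      exact ⟨e, fun _ => he⟩
  choose ch hch using h
  refine ⟨fun i j => ch (min i j) (max i j), fun i j => by simp only [min_comm i j, max_comm i j], ?_⟩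
  intro i j hij
  rcases lt_or_gt_of_ne hij with h | h
  · have h1 : min i j = i := min_eq_left h.le
    have h2 : max i j = j := max_eq_right h.le
    simp only [h1, h2]
    exact hch i j hij
  · have h1 : min i j = j := min_eq_right h.le
    have h2 : max i j = i := max_eq_left h.le
    simp only [h1, h2]
    obtain ⟨a, b, c, d⟩ := hch j i hij.symm
    refine ⟨a, c, b, fun k => ?_⟩
    rcases d k with h | h | h
    · exact Or.inr (Or.inl h)
    · exact Or.inl h
    · exact Or.inr (Or.inr h)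

/-- dual vector -/
def ud (x : Fin (m + 2) → Fin (m + 1) → ℝ) (i j : Fin (m + 2)) (e : Fin m → Fin (m + 2)) :
    Fin (m + 1) → ℝ := (Mx x i j e)⁻¹.mulVec (Pi.single 0 1)

theorem ud_self (x : Fin (m + 2) → Fin (m + 1) → ℝ) (i j : Fin (m + 2))
    (e : Fin m → Fin (m + 2)) (h1 : (Mx x i j e).det ≠ 0) :
    ∑ l, (x i l - x j l) * ud x i j e l = 1 := by
  have hu : IsUnit (Mx x i j e).det := isUnit_iff_ne_zero.2 h1
  rw [← Mx_mulVec_zero x i j e, ud, Matrix.mulVec_mulVec, Matrix.mul_nonsing_inv _ hu,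
    Matrix.one_mulVec]
  simp

theorem ud_other (x : Fin (m + 2) → Fin (m + 1) → ℝ) (i j : Fin (m + 2))
    (e : Fin m → Fin (m + 2)) (h1 : (Mx x i j e).det ≠ 0) (a : Fin m) :
    ∑ l, (x i l - x (e a) l) * ud x i j e l = 0 := by
  have hu : IsUnit (Mx x i j e).det := isUnit_iff_ne_zero.2 h1
  rw [← Mx_mulVec_succ x i j e, ud, Matrix.mulVec_mulVec, Matrix.mul_nonsing_inv _ hu,
    Matrix.one_mulVec]
  simp


end Pool.Agent.Helper15.KP
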