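import Mathlib

set_option autoImplicit false

open MeasureTheory Set

noncomputable section

namespace Pool.Agent.Helper15.KP

/-- The power function of the ball with centre `(c, 0)` and squared radius `R` on `ℝ^m × ℝ`. -/
def F {m : ℕ} (c : Fin m → ℝ) (R : ℝ) (w : (Fin m → ℝ) × ℝ) : ℝ :=
  ∑ l, (w.1 l - c l) ^ 2 + w.2 ^ 2 - R

/-- The minimum of finitely many real numbers. -/
def mn {n : ℕ} (g : Fin (n + 1) → ℝ) : ℝ := Finset.univ.inf' Finset.univ_nonempty g

/-- Integral over `ℝ^m × ℝ` of `Φ` of the minimum of the power functions. -/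
def I {m n : ℕ} (Φ : ℝ → ℝ) (R : Fin (n + 1) → ℝ) (x : Fin (n + 1) → Fin m → ℝ) : ℝ :=
  ∫ w : (Fin m → ℝ) × ℝ, Φ (mn fun k => F (x k) (R k) w)

/-- Squared Euclidean distance. -/
def sq {m : ℕ} (a b : Fin m → ℝ) : ℝ := ∑ l, (a l - b l) ^ 2

end Pool.Agent.Helper15.KP
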