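import Pool.Agent.Helper15.KP.Path
import Pool.Agent.Helper11.KP.Flat
import Pool.Agent.Helper48.KP.VolLe
import Pool.Agent.Helper70.KP.K1

set_option autoImplicit false

open MeasureTheory Set

noncomputable section

namespace Pool.Agent.Helper15.KP

/-- The Kneser-Poulsen inequality for unions of `d + 4` balls. -/
theorem kp (d : ℕ) (hd : 3 ≤ d) (p q : Fin (d + 4) → EuclideanSpace ℝ (Fin d))
    (r : Fin (d + 4) → ℝ) (hr : ∀ i, 0 < r i) (h : ∀ i j, dist (q i) (q j) ≤ dist (p i) (p j)) :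
    volume (⋃ i, Metric.closedBall (q i) (r i)) ≤
      volume (⋃ i, Metric.closedBall (p i) (r i)) := by
  refine Pool.Agent.Helper48.KP.vol_le p q r hr ?_
  intro κ hκ hc h0
  have key := I_anti κ hκ hc h0 (m := d + 2) (by omega) (fun k => r k ^ 2)
    (fun k => (Fin.cons 0 (Fin.cons 0 (Fin.cons 0 (p k).ofLp)) : Fin (d + 3) → ℝ))
    (fun k => (Fin.cons 0 (Fin.cons 0 (Fin.cons 0 (q k).ofLp)) : Fin (d + 3) → ℝ)) ?_
  · rw [Pool.Agent.Helper11.KP.I_flat_of κ hκ hc Pool.Agent.Helper70.KP1.radial2,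
      Pool.Agent.Helper11.KP.I_flat_of κ hκ hc Pool.Agent.Helper70.KP1.radial2] at key
    exact le_of_mul_le_mul_left key (by positivity)
  · intro i j
    have hij := h i j
    rw [EuclideanSpace.dist_eq, EuclideanSpace.dist_eq] at hij
    have h2 := Real.sqrt_le_sqrt_iff (by positivity) |>.1 hij
    simp only [sq, Fin.sum_univ_succ, Fin.cons_zero, Fin.cons_succ]
    simpa [Real.dist_eq, sq_abs] using h2

end Pool.Agent.Helper15.KP
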